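import Pool.Agent.Lib.TGBC_h49.BC6
import Pool.Agent.Lib.TGBC_h29.Rows

/-!
# TANK G, bridge B -> C, RowIR
-/

set_option autoImplicit false

namespace Pool.Agent.TGBC49

open Pool.Agent.TG (ncl Ov ZDim)
open Pool.Agent.TGh4
open Pool.Agent.TGJ
open Pool.Agent.TGBC

universe u

/-- The local degree at a point is positive. -/
def RhoPos (k K : Type u) [Field k] [Field K] [Algebra k K] : Prop :=
  IsAlgClosed k → ∀ (S : Subalgebra k K) (res : S →ₐ[k] k), NPt S res →
    ∀ n : ℕ, Algebra.trdeg k K = (n : ℕ) → ∀ f : Fin n → S, Proper S.val res f →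
      0 < Rho S.val res f

section Lead

variable {k R : Type*} [Field k] [CommRing R] [Algebra k R] {n : ℕ}

/-- `α` is the leading form of `a`. -/
structure IsLead (m : Ideal R) (u : Fin n → R) (b : ℕ) (α : MvPolynomial (Fin n) k) (a : R) :
    Prop where
  hom : α.IsHomogeneous b
  ne : ∀ i, MvPolynomial.coeff (Finsupp.single i b) α ≠ 0
  mem : a - MvPolynomial.aeval u α ∈ m ^ (b + 1)

theorem IsLead.form_mem {m : Ideal R} {u : Fin n → R} (hu : ∀ i, u i ∈ m) {b : ℕ}
    {α : MvPolynomial (Fin n) k} {a : R} (h : IsLead m u b α a) :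
    MvPolynomial.aeval u α ∈ m ^ b := TGBC74.aeval_mem_pow m hu h.hom

theorem IsLead.mem_pow {m : Ideal R} {u : Fin n → R} (hu : ∀ i, u i ∈ m) {b : ℕ}
    {α : MvPolynomial (Fin n) k} {a : R} (h : IsLead m u b α a) : a ∈ m ^ b := by
  have h1 := Ideal.add_mem _ (Ideal.pow_le_pow_right (Nat.le_succ b) h.mem) (h.form_mem hu)
  rwa [sub_add_cancel] at h1

theorem IsLead.mul {m : Ideal R} {u : Fin n → R} (hu : ∀ i, u i ∈ m) {b b' : ℕ}
    {α α' : MvPolynomial (Fin n) k} {a a' : R} (h : IsLead m u b α a) (h' : IsLead m u b' α' a') :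
    IsLead m u (b + b') (α * α') (a * a') := by
  refine ⟨h.hom.mul h'.hom, fun i => ?_, ?_⟩
  · rw [← TGBC74.eval_single (h.hom.mul h'.hom), map_mul, TGBC74.eval_single h.hom,
      TGBC74.eval_single h'.hom]
    exact mul_ne_zero (h.ne i) (h'.ne i)
  · have h1 : a * a' - MvPolynomial.aeval u (α * α') =
        (a - MvPolynomial.aeval u α) * a' +
          MvPolynomial.aeval u α * (a' - MvPolynomial.aeval u α') := by
      rw [map_mul]
      ring
    rw [h1]
    refine Ideal.add_mem _ ?_ ?_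
    · have h2 := Ideal.mul_mem_mul h.mem (h'.mem_pow hu)
      rw [← pow_add] at h2
      have h3 : b + 1 + b' = b + b' + 1 := by ring
      rwa [h3] at h2
    · have h2 := Ideal.mul_mem_mul (h.form_mem hu) h'.mem
      rw [← pow_add] at h2
      exact h2

theorem IsLead.one (m : Ideal R) (u : Fin n → R) : IsLead m u 0 (1 : MvPolynomial (Fin n) k) 1 := by
  refine ⟨MvPolynomial.isHomogeneous_one _ _, fun i => ?_, ?_⟩
  · rw [Finsupp.single_zero, MvPolynomial.coeff_zero_one]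
    exact one_ne_zero
  · rw [map_one, sub_self]
    exact Ideal.zero_mem _

theorem IsLead.pow {m : Ideal R} {u : Fin n → R} (hu : ∀ i, u i ∈ m) {b : ℕ}
    {α : MvPolynomial (Fin n) k} {a : R} (h : IsLead m u b α a) (c : ℕ) :
    IsLead m u (c * b) (α ^ c) (a ^ c) := by
  induction c with
  | zero =>
    rw [zero_mul, pow_zero, pow_zero]
    exact IsLead.one m u
  | succ c ih =>
    rw [pow_succ, pow_succ, add_mul, one_mul]
    exact ih.mul hu h

end Lead

section Row

variable {k K : Type u} [Field k] [Field K] [Algebra k K] {S : Subalgebra k K} {res : S →ₐ[k] k}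
  {n : ℕ} {R : Type u} [CommRing R] [Algebra k R] {φ : R →ₐ[k] S} {m : Ideal R}
  {u : Fin (n + 1) → R}

/-- A leading form of degree `0`: the element is a unit. -/
theorem IsLead.res_ne (hm : ∀ y ∈ m, res (φ y) = 0) {α : MvPolynomial (Fin (n + 1)) k} {a : R}
    (h : IsLead m u 0 α a) : res (φ a) ≠ 0 := by
  have h1 : α.totalDegree = 0 := Nat.le_zero.1 h.hom.totalDegree_le
  have h2 := MvPolynomial.totalDegree_eq_zero_iff_eq_C.1 h1
  have h3 : MvPolynomial.coeff 0 α ≠ 0 := by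
    have h4 := h.ne 0
    rwa [Finsupp.single_zero] at h4
  have h4 := hm _ (by simpa using h.mem)
  rw [h2, MvPolynomial.aeval_C, map_sub, map_sub, sub_eq_zero] at h4
  rw [h4, AlgHom.commutes, AlgHom.commutes]
  exact h3

/-- A unit is not in the centre. -/
theorem not_mem_cen (hS : NPt S res) {V : ValuationSubring K} (hV : IsDiv S V) {a : S}
    (ha : res a ≠ 0) : a ∉ cen S V := by
  intro h
  rw [mem_cen hV.le] at h
  have ha0 : (a : K) ≠ 0 := by
    intro h0
    have h1 : a = 0 := Subtype.ext h0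
    exact ha (by rw [h1, map_zero])
  have h1 : V.valuation (a : K)⁻¹ ≤ 1 := (V.valuation_le_one_iff _).2 (hV.le _ (hS.inv a ha))
  have h2 : V.valuation (a : K) * V.valuation (a : K)⁻¹ = 1 := by
    rw [← map_mul, mul_inv_cancel₀ ha0, map_one]
  have h3 : V.valuation (a : K) * V.valuation (a : K)⁻¹ < 1 := mul_lt_one_of_lt_of_le h h1
  exact h3.ne h2

/-- An element with a leading form is nonzero. -/
theorem IsLead.ne_zero (hF1 : F1 k K) (hk : IsAlgClosed k) (hS : NPt S res)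
    (htr : Algebra.trdeg k K = ((n + 1 : ℕ) : Cardinal)) (hm : ∀ y ∈ m, res (φ y) = 0)
    (hlead : ∀ (i : Fin (n + 1)) (b j : ℕ), 0 < b → b < j → ∀ α : MvPolynomial (Fin (n + 1)) k,
        α.IsHomogeneous b → MvPolynomial.coeff (Finsupp.single i b) α ≠ 0 →
        ∀ a : R, a - MvPolynomial.aeval u α ∈ m ^ j →
          Proper S.val res (Fin.cons (φ a) (fun l => φ (u (i.succAbove l))) : Fin (n + 1) → S) ∧
          Rho S.val res (Fin.cons (φ a) (fun l => φ (u (i.succAbove l))) : Fin (n + 1) → S) =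
            b * Rho S.val res (fun l => φ (u l)))
    (hpos : 0 < Rho S.val res (fun l => φ (u l)))
    {b : ℕ} {α : MvPolynomial (Fin (n + 1)) k} {a : R} (h : IsLead m u b α a) :
    ((φ a : S) : K) ≠ 0 := by
  intro h0
  have h0' : φ a = 0 := Subtype.ext h0
  rcases Nat.eq_zero_or_pos b with rfl | hb
  · exact h.res_ne hm (by rw [h0', map_zero])
  · obtain ⟨h1, h2⟩ := hlead 0 b (b + 1) hb (Nat.lt_succ_self b) α h.hom (h.ne 0) a h.mem
    have h3 := (hF1 hk S res hS n htr _ _ h1).2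
    rw [h2, h0] at h3
    have h4 : 0 < b * Rho S.val res (fun l => φ (u l)) := Nat.mul_pos hb hpos
    rw [h3] at h4
    refine h4.ne' ?_
    refine finsum_mem_eq_zero_of_forall_eq_zero fun V _ => ?_
    rw [ordV_zero, Int.toNat_zero, zero_mul]

end Row

theorem rowIR {k K : Type u} [Field k] [Field K] [Algebra k K] (hF1 : F1 k K)
    (hLead : RowLead k K) (hpos : RhoPos k K) : RowIR k K := by
  intro hk S res hS n htr R _ _ φ hφ m hmfg hm u hu hred hum T c₁ hc₁ J J' hJ hJ' Θ hΘ hnot hin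
  have hlead := hLead hk S res hS n htr R φ m hmfg hm u hu hred hum
  have hp : 0 < Rho S.val res (fun l => φ (u l)) := hpos hk S res hS (n + 1) htr _ hu
  obtain ⟨bJ, hbJ, αJ, hJ1, hJ2, aJ, haJ, hJ3⟩ := hJ
  obtain ⟨bT, hbT, αT, hT1, hT2, aT, haT, hT3⟩ := hJ'
  have LJ : IsLead m u bJ αJ aJ := ⟨hJ1, hJ2, hJ3⟩
  have LT : IsLead m u bT αT aT := ⟨hT1, hT2, hT3⟩
  have hJ0 := LJ.ne_zero hF1 hk hS htr hm hlead hp
  have hT0 := LT.ne_zero hF1 hk hS htr hm hlead hp
  have LA := LJ.mul hum (LT.pow hum c₁)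
  have hA0 := LA.ne_zero hF1 hk hS htr hm hlead hp
  have hAval : ((φ (aJ * aT ^ c₁) : S) : K) = ((φ aJ : S) : K) * ((φ aT : S) : K) ^ c₁ := by
    rw [map_mul, map_pow]
    rfl
  have hord : ∀ V, IsDiv S V → ordV V ((φ (aJ * aT ^ c₁) : S) : K) =
      ordV V ((φ aJ : S) : K) + c₁ * ordV V ((φ aT : S) : K) := by
    intro V hV
    rw [hAval, ordV_mul V hJ0 (pow_ne_zero _ hT0), ordV_pow]
  have hram : ∀ V, IsDiv S V →
      (ramV V (fun l => φ (u l)) : ℤ) ≤ ordV V ((φ (aJ * aT ^ c₁) : S) : K) := by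
    intro V hV
    rw [hord V hV]
    have h1 := ord_nonneg hV (φ aJ)
    have h2 := ord_nonneg hV (φ aT)
    by_cases hVΘ : V ∈ Θ
    · obtain ⟨h3, h4⟩ := hin V hVΘ
      have h5 := h4 aT haT hT0
      nlinarith
    · have h3 := hnot V hV hVΘ aJ haJ hJ0
      nlinarith
  have hdiv : ∀ V ∈ Θ, φ aT ∈ cen S V := by
    intro V hV
    by_contra h
    have h1 := ord_zero (hΘ V hV) h
    have h2 := (hin V hV).2 aT haT hT0
    omega
  have hbT0 : Θ.Nonempty → 0 < bT := by
    rintro ⟨V, hV⟩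
    by_contra h
    have h0 : bT = 0 := by omega
    subst h0
    exact not_mem_cen hS (hΘ V hV) (LT.res_ne hm) (hdiv V hV)
  have hfin : Θ.Finite := (finite_div hS hT0).subset fun V hV => ⟨hΘ V hV, hdiv V hV⟩
  have hw : (fun l => φ (u l)) ∘ Fin.succ = fun l : Fin n => φ (u ((0 : Fin (n + 1)).succAbove l)) := by
    funext l
    simp
  have hIR : ProperR S res ((fun l => φ (u l)) ∘ Fin.succ) (fun l => φ (u l)) ∧
      IR S res ((fun l => φ (u l)) ∘ Fin.succ) (fun l => φ (u l)) ≤ T * (1 + c₁) * c₁ := by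
    rcases Nat.eq_zero_or_pos (bJ + c₁ * bT) with hb | hb
    · have hr : ∀ V, IsDiv S V → ramV V (fun l => φ (u l)) = 0 := by
        intro V hV
        rw [hb] at LA
        have h1 := ord_zero hV (not_mem_cen hS hV (LA.res_ne hm))
        have h2 := hram V hV
        omega
      refine ⟨fun V hV h => absurd (hr V hV) h, ?_⟩
      have h0 : IR S res ((fun l => φ (u l)) ∘ Fin.succ) (fun l => φ (u l)) = 0 := by
        refine finsum_mem_eq_zero_of_forall_eq_zero fun V hV => ?_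
        rw [hr V hV, zero_mul]
      rw [h0]
      exact Nat.zero_le _
    · obtain ⟨h1, h2⟩ := hlead 0 _ _ hb (Nat.lt_succ_self _) _ LA.hom (LA.ne 0) _ LA.mem
      obtain ⟨h3, h4⟩ := hF1 hk S res hS n htr _ _ h1
      rw [← hw] at h1 h2 h3 h4
      refine ⟨fun V hV hr => h3 V hV ?_, ?_⟩
      · by_contra h
        have h5 := ord_zero hV h
        have h6 := hram V hV
        omega
      · refine (sum_le hS hA0 (fun V => RhoV S V res ((fun l => φ (u l)) ∘ Fin.succ)) _ hram).trans ?_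
        rw [← h4, h2]
        have h5 : bJ + c₁ * bT ≤ T * (1 + c₁) := by nlinarith
        exact Nat.mul_le_mul h5 hc₁
  refine ⟨hS, hu, hc₁, hIR.1, hIR.2, hfin, hΘ, fun V hV => ?_⟩
  have hb := hbT0 ⟨V, hV⟩
  obtain ⟨h1, h2⟩ := hlead (Fin.last n) _ _ hb (Nat.lt_succ_self _) _ LT.hom (LT.ne _) _ LT.mem
  obtain ⟨h3, h4⟩ := hF1 hk S res hS n htr _ _ h1
  have hw' : (fun l => φ (u l)) ∘ Fin.castSucc =
      fun l : Fin n => φ (u ((Fin.last n).succAbove l)) := by
    funext l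
    simp
  rw [← hw'] at h1 h2 h3 h4
  refine ⟨h3 V (hΘ V hV) (hdiv V hV), ?_⟩
  refine (le_sum hS hT0 (fun V => RhoV S V res ((fun l => φ (u l)) ∘ Fin.castSucc)) (hΘ V hV)
    (hdiv V hV)).trans ?_
  rw [← h4, h2]
  exact Nat.mul_le_mul hbT.le hc₁

end Pool.Agent.TGBC49
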