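import Pool.Agent.Lib.TGJ.Iface

/-!
# TANK G, bridge B -> C, row BC6

Finitely many prime divisors through a point contain a given element; `I(w; R) ≤ ρ(w, a)` when the
coefficients of `R` are at most the orders of `a`; `ρ_κ(V)(S; w) ≤ ρ(w, a)` when `a` vanishes on
`V`; additivity of `ρ(w, ·)`.
-/

set_option autoImplicit false

namespace Pool.Agent.TGBC49

open Pool.Agent.TG (ncl Ov ZDim)
open Pool.Agent.TGh4
open Pool.Agent.TGJ

universe u

variable {k K : Type u} [Field k] [Field K] [Algebra k K] {S : Subalgebra k K} {res : S →ₐ[k] k}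

/-- The local ring of a point is noetherian. -/
theorem noeth (hS : NPt S res) : IsNoetherianRing S := by
  obtain ⟨A, hfg, hA, hloc⟩ := hS.fg
  have hft : Algebra.FiniteType k A := (Subalgebra.fg_iff_finiteType A).1 hfg
  have hnoe : IsNoetherianRing A := Algebra.FiniteType.isNoetherianRing k A
  rw [isNoetherianRing_iff_ideal_fg]
  intro I
  let φ : A →+* S := (Subalgebra.inclusion hA : A →ₐ[k] S)
  have h1 : I = (I.comap φ).map φ := by
    refine le_antisymm (fun s hs => ?_) Ideal.map_comap_le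
    obtain ⟨a, b, hb, hab⟩ := hloc s
    have hb0 : res (φ b) ≠ 0 := by
      change res (Subalgebra.inclusion hA b) ≠ 0
      rw [hb]; exact one_ne_zero
    have hbK : ((φ b : S) : K) ≠ 0 := by
      intro h
      have h2 : φ b = 0 := Subtype.ext h
      exact hb0 (by rw [h2, map_zero])
    have hbi := hS.inv (φ b) hb0
    have h3 : s * φ b = φ a := Subtype.ext hab
    have h4 : φ a ∈ I := by rw [← h3]; exact I.mul_mem_right _ hs
    have h5 : s = (⟨((φ b : S) : K)⁻¹, hbi⟩ : S) * φ a := by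
      apply Subtype.ext
      change (s : K) = ((φ b : S) : K)⁻¹ * ((φ a : S) : K)
      rw [← h3]
      change (s : K) = ((φ b : S) : K)⁻¹ * ((s : K) * ((φ b : S) : K))
      field_simp
    rw [h5]
    exact Ideal.mul_mem_left _ _ (Ideal.mem_map_of_mem φ h4)
  rw [h1]
  exact Ideal.FG.map (hnoe.noetherian _) _

theorem val_le_one {V : ValuationSubring K} (hV : IsDiv S V) (a : S) : V.valuation (a : K) ≤ 1 :=
  (V.valuation_le_one_iff _).2 (hV.le a a.2)

theorem val_eq_one {V : ValuationSubring K} (hV : IsDiv S V) {a : S} (ha : a ∉ cen S V) :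
    V.valuation (a : K) = 1 := by
  rw [mem_cen hV.le] at ha
  exact le_antisymm (val_le_one hV a) (not_lt.1 ha)

/-- A prime divisor is determined by its centre. -/
theorem div_le {V V' : ValuationSubring K} (hV : IsDiv S V) (hV' : IsDiv S V')
    (h : cen S V' ≤ cen S V) : V ≤ V' := by
  intro x hx
  obtain ⟨a, ha, b, hb, hvb, hab⟩ := hV.loc x hx
  have h1 : (⟨b, hb⟩ : S) ∉ cen S V' := by
    intro h2
    have h3 := h h2
    rw [mem_cen hV.le] at h3
    exact (hvb ▸ h3 : (1 : V.ValueGroup) < 1).false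
  have h2 : V'.valuation b = 1 := val_eq_one hV' h1
  have hb0 : b ≠ 0 := by
    rintro rfl
    rw [map_zero] at h2
    exact zero_ne_one h2
  rw [← V'.valuation_le_one_iff]
  have h3 : V'.valuation x * V'.valuation b = V'.valuation a := by rw [← map_mul, hab]
  rw [h2, mul_one] at h3
  rw [h3]
  exact val_le_one hV' ⟨a, ha⟩

theorem cen_inj {V V' : ValuationSubring K} (hV : IsDiv S V) (hV' : IsDiv S V')
    (h : cen S V = cen S V') : V = V' :=
  le_antisymm (div_le hV hV' h.ge) (div_le hV' hV h.le)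

theorem ord_pos {V : ValuationSubring K} (hV : IsDiv S V) {a : S} (ha0 : (a : K) ≠ 0)
    (ha : a ∈ cen S V) : 0 < ordV V (a : K) := by
  rw [mem_cen hV.le] at ha
  exact (lt_one_iff hV.disc ha0).1 ha

theorem ord_zero {V : ValuationSubring K} (hV : IsDiv S V) {a : S} (ha : a ∉ cen S V) :
    ordV V (a : K) = 0 := by
  have h1 := val_eq_one hV ha
  have ha0 : (a : K) ≠ 0 := by
    intro h
    rw [h, map_zero] at h1
    exact zero_ne_one h1
  exact (ordV_eq_zero_iff hV.disc ha0).2 h1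

theorem ord_nonneg {V : ValuationSubring K} (hV : IsDiv S V) (a : S) : 0 ≤ ordV V (a : K) :=
  ordV_nonneg_of_mem (hV.le a a.2)

/-- The centre of a prime divisor is minimal over each nonzero element. -/
theorem cen_minimal {V : ValuationSubring K} (hV : IsDiv S V) {a : S} (ha0 : (a : K) ≠ 0)
    (ha : a ∈ cen S V) : cen S V ∈ (Ideal.span {a} : Ideal S).minimalPrimes := by
  refine ⟨⟨inferInstance, (Ideal.span_singleton_le_iff_mem _).2 ha⟩, ?_⟩
  rintro Q ⟨hQ, hQa⟩ hQV x hx
  rw [Ideal.span_singleton_le_iff_mem] at hQa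
  by_cases hx0 : (x : K) = 0
  · have h1 : x = 0 := Subtype.ext hx0
    rw [h1]
    exact Q.zero_mem
  have h1 := ord_pos hV hx0 hx
  have h2 := ord_pos hV ha0 ha
  -- `x ^ N / a ∈ V`
  have h3 : (x : K) ^ (ordV V (a : K)).toNat / a ∈ V := by
    rw [mem_iff hV.disc (div_ne_zero (pow_ne_zero _ hx0) ha0), ordV_div V (pow_ne_zero _ hx0) ha0,
      ordV_pow, Int.toNat_of_nonneg h2.le]
    nlinarith
  obtain ⟨c, hc, b, hb, hvb, hcb⟩ := hV.loc _ h3
  have h4 : x ^ (ordV V (a : K)).toNat * (⟨b, hb⟩ : S) = a * ⟨c, hc⟩ := by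
    apply Subtype.ext
    change (x : K) ^ (ordV V (a : K)).toNat * b = a * c
    rw [← hcb]
    field_simp
  have h5 : x ^ (ordV V (a : K)).toNat * (⟨b, hb⟩ : S) ∈ Q := by
    rw [h4]
    exact Q.mul_mem_right _ hQa
  rcases hQ.mem_or_mem h5 with h6 | h6
  · exact hQ.mem_of_pow_mem _ h6
  · exfalso
    have h7 := hQV h6
    rw [mem_cen hV.le] at h7
    exact (hvb ▸ h7 : (1 : V.ValueGroup) < 1).false

/-- Finitely many prime divisors contain a nonzero element. -/
theorem finite_div (hS : NPt S res) {a : S} (ha0 : (a : K) ≠ 0) :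
    {V : ValuationSubring K | IsDiv S V ∧ a ∈ cen S V}.Finite := by
  have := noeth hS
  have h1 := Ideal.finite_minimalPrimes_of_isNoetherianRing S (Ideal.span {a})
  refine Set.Finite.of_finite_image (f := cen S) (h1.subset ?_) ?_
  · rintro _ ⟨V, ⟨hV, ha⟩, rfl⟩
    exact cen_minimal hV ha0 ha
  · rintro V ⟨hV, -⟩ V' ⟨hV', -⟩ h
    exact cen_inj hV hV' h

/-- The divisor of an element as a finite sum. -/
theorem fsum_eq {a : S} (r : ValuationSubring K → ℕ) (t : Finset (ValuationSubring K))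
    (ht : ∀ V ∈ t, IsDiv S V) (hsub : ∀ V, IsDiv S V → a ∈ cen S V → V ∈ t) :
    ∑ᶠ V ∈ {V : ValuationSubring K | IsDiv S V}, (ordV V (a : K)).toNat * r V =
      ∑ V ∈ t, (ordV V (a : K)).toNat * r V := by
  refine finsum_mem_eq_sum_of_subset _ ?_ fun V hV => ht V hV
  rintro V ⟨hV, hV'⟩
  refine hsub V hV ?_
  by_contra h
  apply hV'
  change (ordV V (a : K)).toNat * r V = 0
  rw [ord_zero hV h, Int.toNat_zero, zero_mul]

/-- Comparison of divisors. -/
theorem sum_le (hS : NPt S res) {a : S} (ha0 : (a : K) ≠ 0) (r c : ValuationSubring K → ℕ)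
    (hc : ∀ V, IsDiv S V → (c V : ℤ) ≤ ordV V (a : K)) :
    ∑ᶠ V ∈ {V : ValuationSubring K | IsDiv S V}, c V * r V ≤
      ∑ᶠ V ∈ {V : ValuationSubring K | IsDiv S V}, (ordV V (a : K)).toNat * r V := by
  classical
  let t := (finite_div hS ha0).toFinset
  have ht : ∀ V ∈ t, IsDiv S V := fun V hV => ((finite_div hS ha0).mem_toFinset.1 hV).1
  rw [fsum_eq r t ht fun V hV ha => (finite_div hS ha0).mem_toFinset.2 ⟨hV, ha⟩]
  have h1 : ∑ᶠ V ∈ {V : ValuationSubring K | IsDiv S V}, c V * r V = ∑ V ∈ t, c V * r V := by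
    refine finsum_mem_eq_sum_of_subset _ ?_ fun V hV => ht V hV
    rintro V ⟨hV, hV'⟩
    refine (finite_div hS ha0).mem_toFinset.2 ⟨hV, ?_⟩
    by_contra h
    apply hV'
    have h2 := hc V hV
    rw [ord_zero hV h] at h2
    have h3 : c V = 0 := by omega
    change c V * r V = 0
    rw [h3, zero_mul]
  rw [h1]
  refine Finset.sum_le_sum fun V hV => Nat.mul_le_mul_right _ ?_
  have := hc V (ht V hV)
  omega

/-- One prime divisor. -/
theorem le_sum (hS : NPt S res) {a : S} (ha0 : (a : K) ≠ 0) (r : ValuationSubring K → ℕ)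
    {V : ValuationSubring K} (hV : IsDiv S V) (ha : a ∈ cen S V) :
    r V ≤ ∑ᶠ V ∈ {V : ValuationSubring K | IsDiv S V}, (ordV V (a : K)).toNat * r V := by
  classical
  let t := (finite_div hS ha0).toFinset
  have ht : ∀ V ∈ t, IsDiv S V := fun V hV => ((finite_div hS ha0).mem_toFinset.1 hV).1
  rw [fsum_eq r t ht fun V hV ha => (finite_div hS ha0).mem_toFinset.2 ⟨hV, ha⟩]
  have h1 := ord_pos hV ha0 ha
  have h2 : r V ≤ (ordV V (a : K)).toNat * r V := by
    have : 1 ≤ (ordV V (a : K)).toNat := by omega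
    nlinarith
  exact h2.trans (Finset.single_le_sum (f := fun V => (ordV V (a : K)).toNat * r V)
      (fun _ _ => Nat.zero_le _) ((finite_div hS ha0).mem_toFinset.2 ⟨hV, ha⟩))

/-- `div (a * a' ^ r) = div a + r * div a'`. -/
theorem sum_mul_pow (hS : NPt S res) {a a' : S} (ha0 : (a : K) ≠ 0) (ha'0 : (a' : K) ≠ 0)
    (n : ℕ) (r : ValuationSubring K → ℕ) :
    ∑ᶠ V ∈ {V : ValuationSubring K | IsDiv S V},
        (ordV V ((a * a' ^ n : S) : K)).toNat * r V =
      ∑ᶠ V ∈ {V : ValuationSubring K | IsDiv S V}, (ordV V (a : K)).toNat * r V +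
        n * ∑ᶠ V ∈ {V : ValuationSubring K | IsDiv S V}, (ordV V (a' : K)).toNat * r V := by
  classical
  let t := (finite_div hS ha0).toFinset ∪ (finite_div hS ha'0).toFinset
  have ht : ∀ V ∈ t, IsDiv S V := fun V hV => by
    rcases Finset.mem_union.1 hV with h | h
    · exact ((finite_div hS ha0).mem_toFinset.1 h).1
    · exact ((finite_div hS ha'0).mem_toFinset.1 h).1
  have h1 : ∀ V, IsDiv S V → a ∈ cen S V → V ∈ t := fun V hV h =>
    Finset.mem_union_left _ ((finite_div hS ha0).mem_toFinset.2 ⟨hV, h⟩)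
  have h2 : ∀ V, IsDiv S V → a' ∈ cen S V → V ∈ t := fun V hV h =>
    Finset.mem_union_right _ ((finite_div hS ha'0).mem_toFinset.2 ⟨hV, h⟩)
  rw [fsum_eq r t ht h1, fsum_eq r t ht h2, fsum_eq r t ht (fun V hV h => by
    rcases (cen_prime S V).mem_or_mem h with h | h
    · exact h1 V hV h
    · exact h2 V hV ((cen_prime S V).mem_of_pow_mem n h)), Finset.mul_sum,
    ← Finset.sum_add_distrib]
  refine Finset.sum_congr rfl fun V hV => ?_
  have h3 : ((a * a' ^ n : S) : K) = (a : K) * (a' : K) ^ n := rfl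
  rw [h3, ordV_mul V ha0 (pow_ne_zero n ha'0), ordV_pow]
  have h4 := ord_nonneg (ht V hV) a
  have h5 := ord_nonneg (ht V hV) a'
  rw [Int.toNat_add h4 (mul_nonneg (Int.natCast_nonneg n) h5), Int.toNat_mul
    (Int.natCast_nonneg n) h5, Int.toNat_natCast]
  ring

variable {m : ℕ}

/-- Properness of a product. -/
theorem proper_mul_pow {a a' : S} {w : Fin m → S} {n : ℕ}
    (h : Proper S.val res (Fin.cons a w : Fin (m + 1) → S))
    (h' : Proper S.val res (Fin.cons a' w : Fin (m + 1) → S)) :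
    Proper S.val res (Fin.cons (a * a' ^ n) w : Fin (m + 1) → S) := by
  refine ⟨fun i => ?_, fun Q hQ hker hmem => ?_⟩
  · refine Fin.cases ?_ (fun i => ?_) i
    · have h1 : res a = 0 := h.1 0
      change res (a * a' ^ n) = 0
      rw [map_mul, h1, zero_mul]
    · exact h.1 i.succ
  · have h1 : a * a' ^ n ∈ Q := hmem 0
    have hw : ∀ i, w i ∈ Q := fun i => hmem i.succ
    rcases hQ.mem_or_mem h1 with h2 | h2
    · exact h.2 Q hQ hker fun i => Fin.cases h2 hw i
    · exact h'.2 Q hQ hker fun i => Fin.cases (hQ.mem_of_pow_mem n h2) hw i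

/-- **BC6**. -/
theorem bc6 (hF1 : F1 k K) [IsAlgClosed k] (hS : NPt S res)
    (htr : Algebra.trdeg k K = ((m + 1 : ℕ) : Cardinal)) (w : Fin m → S)
    {n' : ℕ} (f : Fin n' → S) (aJ aT : S) (hJ0 : (aJ : K) ≠ 0) (hT0 : (aT : K) ≠ 0) (n : ℕ)
    (hJ : Proper S.val res (Fin.cons aJ w : Fin (m + 1) → S))
    (hT : Proper S.val res (Fin.cons aT w : Fin (m + 1) → S))
    (hram : ∀ V, IsDiv S V → (ramV V f : ℤ) ≤ ordV V ((aJ * aT ^ n : S) : K)) :
    ProperR S res w f ∧
      IR S res w f ≤ Rho S.val res (Fin.cons aJ w : Fin (m + 1) → S) +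
        n * Rho S.val res (Fin.cons aT w : Fin (m + 1) → S) ∧
      ∀ V, IsDiv S V → aT ∈ cen S V → ProperV S V res w ∧
        RhoV S V res w ≤ Rho S.val res (Fin.cons aT w : Fin (m + 1) → S) := by
  have hprod := proper_mul_pow (n := n) hJ hT
  have ha0 : ((aJ * aT ^ n : S) : K) ≠ 0 := by
    change (aJ : K) * (aT : K) ^ n ≠ 0
    exact mul_ne_zero hJ0 (pow_ne_zero n hT0)
  obtain ⟨hP1, hE1⟩ := hF1 inferInstance S res hS m htr (aJ * aT ^ n) w hprod
  obtain ⟨-, hEJ⟩ := hF1 inferInstance S res hS m htr aJ w hJ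
  obtain ⟨hPT, hET⟩ := hF1 inferInstance S res hS m htr aT w hT
  refine ⟨?_, ?_, ?_⟩
  · intro V hV hr
    refine hP1 V hV ?_
    by_contra h
    have h1 := hram V hV
    rw [ord_zero hV h] at h1
    omega
  · rw [hEJ, hET, ← sum_mul_pow hS hJ0 hT0]
    exact sum_le hS ha0 (fun V => RhoV S V res w) (fun V => ramV V f) hram
  · intro V hV hVT
    refine ⟨hPT V hV hVT, ?_⟩
    rw [hET]
    exact le_sum hS hT0 (fun V => RhoV S V res w) hV hVT

end Pool.Agent.TGBC49
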