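import Mathlib

/-!
# TANK G, bridge B -> C: the chain of ideals

`R` noetherian, `m` an ideal with all `R / m ^ i` finite dimensional, `J l e` (`l ∈ ι`, `e ∈ ℕ`)
the ideals `{f : ord_l f ≥ e}` of finitely many discrete valuations whose rings are localisations
of `R`.  If the growth of `R / J l 1` with respect to `m` is at least `D l`, then the growth of
`R / b` is at least `∑ e l * D l` for every ideal `b ≤ ⨅ J l (e l)`.
-/

set_option autoImplicit false

namespace Pool.Agent.TGBC

open Module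

variable {k R : Type*} [Field k] [CommRing R] [Algebra k R]

/-- One step of the chain. -/
theorem finrank_add_le (I I' : Ideal R) (hI : I' ≤ I) [FiniteDimensional k (R ⧸ I')]
    (g : R) (hg : g ∈ I) (X : Submodule k R) (hX : ∀ x ∈ X, x * g ∈ I' → x = 0) :
    finrank k (R ⧸ I) + finrank k X ≤ finrank k (R ⧸ I') := by
  classical
  let π : (R ⧸ I') →ₗ[k] (R ⧸ I) := (Ideal.Quotient.factorₐ k hI).toLinearMap
  have hπ : Function.Surjective π := Ideal.Quotient.factor_surjective hI
  let φ : X →ₗ[k] (R ⧸ I') :=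
    ((Ideal.Quotient.mkₐ k I').toLinearMap ∘ₗ (LinearMap.mulRight k g)) ∘ₗ X.subtype
  have hφ : ∀ x : X, φ x = Ideal.Quotient.mk I' ((x : R) * g) := fun x => rfl
  have hinj : Function.Injective φ := by
    rw [← LinearMap.ker_eq_bot, LinearMap.ker_eq_bot']
    intro x hx
    rw [hφ, Ideal.Quotient.eq_zero_iff_mem] at hx
    exact Subtype.ext (hX x x.2 hx)
  have hrange : LinearMap.range φ ≤ LinearMap.ker π := by
    rintro _ ⟨x, rfl⟩
    rw [LinearMap.mem_ker, hφ]
    change Ideal.Quotient.mk I ((x : R) * g) = 0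
    rw [Ideal.Quotient.eq_zero_iff_mem]
    exact I.mul_mem_left _ hg
  have h1 : finrank k X ≤ finrank k (LinearMap.ker π) := by
    rw [← LinearMap.finrank_range_of_inj hinj]
    exact Submodule.finrank_mono hrange
  have h2 := LinearMap.finrank_range_add_finrank_ker π
  rw [LinearMap.range_eq_top.2 hπ, finrank_top] at h2
  omega

variable [IsNoetherianRing R]

/-- The chain step with Artin-Rees. -/
theorem exists_step (m : Ideal R) (I I' p : Ideal R) (hI : I' ≤ I)
    (hfin : ∀ i, FiniteDimensional k (R ⧸ (I' ⊔ m ^ i)))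
    (g : R) (hg : g ∈ I) (hexact : ∀ a : R, a * g ∈ I' → a ∈ p)
    (hrank : ∀ z ∈ I, ∃ s, s ∉ p ∧ ∃ r, s * z - r * g ∈ I') [hp : p.IsPrime]
    (X : ℕ → Submodule k R) (hX0 : X 0 = ⊥)
    (hcount : ∀ s, s ∉ p → ∃ c, ∀ i, ∀ x ∈ X (i - c), s * x ∈ p ⊔ m ^ i → x = 0) :
    ∃ c, ∀ i, finrank k (R ⧸ (I ⊔ m ^ i)) + finrank k (X (i - c)) ≤
      finrank k (R ⧸ (I' ⊔ m ^ i)) := by
  classical
  -- a common multiplier
  obtain ⟨s, hs, hsI⟩ : ∃ s, s ∉ p ∧ ∀ z ∈ I, ∃ r, s * z - r * g ∈ I' := by
    obtain ⟨T, hT⟩ := IsNoetherian.noetherian I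
    have hTI : ∀ z ∈ T, z ∈ I := fun z hz => hT ▸ Submodule.subset_span hz
    choose! s hs r hr using hrank
    refine ⟨∏ z ∈ T, s z, ?_, ?_⟩
    · intro hmem
      obtain ⟨z, hz, hzp⟩ := (hp.prod_mem_iff).1 hmem
      exact hs z (hTI z hz) hzp
    · intro z hz
      rw [← hT] at hz
      induction hz using Submodule.span_induction with
      | mem z hz =>
        refine ⟨(∏ y ∈ T.erase z, s y) * r z, ?_⟩
        have h1 : (∏ y ∈ T, s y) * z - (∏ y ∈ T.erase z, s y) * r z * g =
            (∏ y ∈ T.erase z, s y) * (s z * z - r z * g) := by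
          rw [← Finset.mul_prod_erase T s hz]
          ring
        rw [h1]
        exact I'.mul_mem_left _ (hr z (hTI z hz))
      | zero => exact ⟨0, by simp⟩
      | add a b _ _ ha hb =>
        obtain ⟨ra, ha⟩ := ha
        obtain ⟨rb, hb⟩ := hb
        refine ⟨ra + rb, ?_⟩
        have h1 := I'.add_mem ha hb
        convert h1 using 1
        ring
      | smul a b _ hb =>
        obtain ⟨rb, hb⟩ := hb
        refine ⟨a * rb, ?_⟩
        have h1 := I'.mul_mem_left a hb
        convert h1 using 1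
        rw [smul_eq_mul]
        ring
  obtain ⟨c₀, hAR⟩ := Ideal.exists_pow_inf_eq_pow_smul m (I : Submodule R R)
  obtain ⟨c₁, hc₁⟩ := hcount s hs
  refine ⟨c₀ + c₁, fun i => ?_⟩
  rcases lt_or_ge i c₀ with hi | hi
  · have h0 : i - (c₀ + c₁) = 0 := by omega
    rw [h0, hX0, finrank_bot, add_zero]
    have : FiniteDimensional k (R ⧸ (I' ⊔ m ^ i)) := hfin i
    have hle : I' ⊔ m ^ i ≤ I ⊔ m ^ i := sup_le_sup_right hI _
    exact LinearMap.finrank_le_finrank_of_surjective
      (f := (Ideal.Quotient.factorₐ k hle).toLinearMap) (Ideal.Quotient.factor_surjective hle)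
  · have : FiniteDimensional k (R ⧸ (I' ⊔ m ^ i)) := hfin i
    refine finrank_add_le (I ⊔ m ^ i) (I' ⊔ m ^ i) (sup_le_sup_right hI _) g
      (Ideal.mem_sup_left hg) (X (i - (c₀ + c₁))) fun x hx hxg => ?_
    obtain ⟨y, hy, z, hz, hyz⟩ := Submodule.mem_sup.1 hxg
    have hzI : z ∈ I := by
      have h1 : z = x * g - y := by rw [← hyz]; ring
      rw [h1]
      exact I.sub_mem (I.mul_mem_left _ hg) (hI hy)
    have hz' : z ∈ m ^ (i - c₀) * I := by
      have h1 : z ∈ (m ^ i • (⊤ : Submodule R R) ⊓ (I : Submodule R R)) := by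
        refine ⟨?_, hzI⟩
        rw [smul_eq_mul, Ideal.mul_top]
        exact hz
      rw [hAR i hi] at h1
      exact Submodule.smul_mono le_rfl inf_le_right h1
    -- multiply by `s`
    have hsz : ∀ z ∈ m ^ (i - c₀) * I, ∃ z', z' ∈ m ^ (i - c₀) ∧ s * z - z' * g ∈ I' := by
      intro z hz
      induction hz using Submodule.mul_induction_on' with
      | mem_mul_mem a ha b hb =>
        obtain ⟨r, hr⟩ := hsI b hb
        refine ⟨a * r, Ideal.mul_mem_right _ _ ha, ?_⟩
        have h1 := I'.mul_mem_left a hr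
        convert h1 using 1
        ring
      | add a _ b _ ha hb =>
        obtain ⟨ra, ha', ha⟩ := ha
        obtain ⟨rb, hb', hb⟩ := hb
        refine ⟨ra + rb, Ideal.add_mem _ ha' hb', ?_⟩
        have h1 := I'.add_mem ha hb
        convert h1 using 1
        ring
    obtain ⟨z', hz'm, hz'⟩ := hsz z hz'
    have h2 : s * x - z' ∈ p := by
      refine hexact _ ?_
      have h3 : (s * x - z') * g = s * y + (s * z - z' * g) := by
        have : x * g = y + z := hyz.symm
        calc (s * x - z') * g = s * (x * g) - z' * g := by ring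
          _ = s * y + (s * z - z' * g) := by rw [this]; ring
      rw [h3]
      exact I'.add_mem (I'.mul_mem_left _ hy) hz'
    refine hc₁ (i - c₀) x ?_ ?_
    · rwa [← Nat.sub_sub] at hx
    · have h3 : s * x = (s * x - z') + z' := by ring
      rw [h3]
      exact Submodule.add_mem_sup h2 hz'm

end Pool.Agent.TGBC
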